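import Pool.Agent.Helper66.DC.Asm4
import Pool.Agent.Helper66.DC.Goals4

/-!
# Project DC4 (MP_628424_an), packet EXT: relations with order of vanishing `k` extend
-/

set_option autoImplicit false

namespace Pool.Agent.Helper88.DC

open MvPolynomial Finset ComplexConjugate Pool.Agent.Helper69.DC Pool.Agent.Helper66.DC

/-! ### Divisibility by the powers of a variable -/

theorem X_pow_dvd_iff' {σ : Type} (i : σ) (k : ℕ) (p : MvPolynomial σ ℂ) :
    (X i : MvPolynomial σ ℂ) ^ k ∣ p ↔ ∀ n : σ →₀ ℕ, n i < k → coeff n p = 0 := by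
  classical
  rw [X_pow_eq_monomial, monomial_one_dvd_iff_modMonomial_eq_zero]
  constructor
  · intro h n hn
    have h1 : ¬ Finsupp.single i k ≤ n := by
      intro h2
      have := h2 i
      rw [Finsupp.single_eq_same] at this
      omega
    rw [← coeff_modMonomial_of_not_le p h1, h, coeff_zero]
  · intro h
    ext n
    rw [coeff_zero]
    by_cases h1 : Finsupp.single i k ≤ n
    · exact coeff_modMonomial_of_le p h1
    · rw [coeff_modMonomial_of_not_le p h1]
      refine h n ?_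
      by_contra h2
      refine h1 (Finsupp.single_le_iff.2 (by omega))

/-! ### Conjugation of the coefficients -/

/-- conjugation of the coefficients -/
noncomputable def cjm {m : ℕ} : MvPolynomial (Fin m) ℂ →+* MvPolynomial (Fin m) ℂ :=
  MvPolynomial.map (starRingEnd ℂ)

theorem cjm_cjm {m : ℕ} (p : MvPolynomial (Fin m) ℂ) : cjm (cjm p) = p := by
  unfold cjm
  rw [MvPolynomial.map_map]
  have h : (starRingEnd ℂ).comp (starRingEnd ℂ) = RingHom.id ℂ := by
    ext z
    simp
  rw [h, MvPolynomial.map_id]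

theorem cjm_dvd {m : ℕ} (p q : MvPolynomial (Fin m) ℂ) : p ∣ q ↔ cjm p ∣ cjm q := by
  constructor
  · exact fun h => map_dvd cjm h
  · intro h
    have := map_dvd cjm h
    rwa [cjm_cjm, cjm_cjm] at this

theorem cjm_C {m : ℕ} (c : ℂ) : cjm (C c : MvPolynomial (Fin m) ℂ) = C (conj c) := by
  simp [cjm]

theorem cjm_X {m : ℕ} (i : Fin m) : cjm (X i : MvPolynomial (Fin m) ℂ) = X i := by
  simp [cjm]

/-- the conjugated linear form -/
noncomputable def Lc {m : ℕ} (β y : Fin m → ℂ) : MvPolynomial (Fin m) ℂ :=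
  ∑ i, C (y i) * (X i - C (conj (β i)))

theorem cjm_xp {m : ℕ} (β y : Fin m → ℂ) : cjm (xp β y) = Lc β y := by
  unfold xp Lc
  rw [map_sum]
  refine Finset.sum_congr rfl fun i _ => ?_
  rw [map_mul, map_sub, cjm_C, cjm_C, cjm_X, Complex.conj_conj]

/-- the conjugated pairing, linear in `u` -/
noncomputable def HL {m N : ℕ} (g : Fin (N + 1) → MvPolynomial (Fin m) ℂ)
    (u : Fin (N + 1) → ℂ) : MvPolynomial (Fin m) ℂ :=
  C (u 0) * cjm (g 0) - ∑ j : Fin N, C (u j.succ) * cjm (g j.succ)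

theorem cjm_hfc {m N : ℕ} (g : Fin (N + 1) → MvPolynomial (Fin m) ℂ) (u : Fin (N + 1) → ℂ) :
    cjm (hfc g u) = HL g u := by
  unfold hfc HL
  rw [map_sub, map_mul, map_sum, cjm_C, Complex.conj_conj]
  congr 1
  refine Finset.sum_congr rfl fun i _ => ?_
  rw [map_mul, cjm_C, Complex.conj_conj]

theorem HL_add {m N : ℕ} (g : Fin (N + 1) → MvPolynomial (Fin m) ℂ) (u u' : Fin (N + 1) → ℂ) :
    HL g (u + u') = HL g u + HL g u' := by
  unfold HL
  simp only [Pi.add_apply, map_add, add_mul, Finset.sum_add_distrib]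
  ring

theorem HL_smul {m N : ℕ} (g : Fin (N + 1) → MvPolynomial (Fin m) ℂ) (c : ℂ)
    (u : Fin (N + 1) → ℂ) : HL g (c • u) = C c * HL g u := by
  unfold HL
  simp only [Pi.smul_apply, smul_eq_mul, map_mul, mul_assoc, mul_sub, Finset.mul_sum]

theorem HL_zero {m N : ℕ} (g : Fin (N + 1) → MvPolynomial (Fin m) ℂ) :
    HL g 0 = 0 := by
  unfold HL
  simp

theorem HL_sum {m N : ℕ} (g : Fin (N + 1) → MvPolynomial (Fin m) ℂ) (s : Finset ℕ) (κ : ℕ → ℂ)
    (u : ℕ → Fin (N + 1) → ℂ) :
    HL g (∑ j ∈ s, κ j • u j) = ∑ j ∈ s, C (κ j) * HL g (u j) := by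
  classical
  induction s using Finset.induction_on with
  | empty => rw [Finset.sum_empty, Finset.sum_empty, HL_zero]
  | insert a s ha ih => rw [Finset.sum_insert ha, Finset.sum_insert ha, HL_add, HL_smul, ih]

/-! ### The substitution -/

/-- the substitution -/
noncomputable def E {m : ℕ} (β : Fin m → ℂ) (i₀ : Fin m) (y : Fin m → ℂ) :
    MvPolynomial (Fin m) ℂ →ₐ[ℂ] MvPolynomial (Fin m) ℂ :=
  aeval fun i => if i = i₀ then C (conj (β i₀)) + X i₀ - ∑ p ∈ univ.erase i₀, C (y p) * X p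
    else C (conj (β i)) + C (y i₀) * X i

/-- its inverse -/
noncomputable def E' {m : ℕ} (β : Fin m → ℂ) (i₀ : Fin m) (y : Fin m → ℂ) :
    MvPolynomial (Fin m) ℂ →ₐ[ℂ] MvPolynomial (Fin m) ℂ :=
  aeval fun i => if i = i₀ then X i₀ - C (conj (β i₀)) +
      ∑ p ∈ univ.erase i₀, C (y p / y i₀) * (X p - C (conj (β p)))
    else C (1 / y i₀) * (X i - C (conj (β i)))

theorem E_C {m : ℕ} (β : Fin m → ℂ) (i₀ : Fin m) (y : Fin m → ℂ) (c : ℂ) :
    E β i₀ y (C c) = C c := by
  simp [E, MvPolynomial.algebraMap_eq]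

theorem E'_C {m : ℕ} (β : Fin m → ℂ) (i₀ : Fin m) (y : Fin m → ℂ) (c : ℂ) :
    E' β i₀ y (C c) = C c := by
  simp [E', MvPolynomial.algebraMap_eq]

theorem E'_E {m : ℕ} (β : Fin m → ℂ) (i₀ : Fin m) (y : Fin m → ℂ) (hy : y i₀ ≠ 0)
    (p : MvPolynomial (Fin m) ℂ) : E' β i₀ y (E β i₀ y p) = p := by
  have h : (E' β i₀ y).comp (E β i₀ y) = AlgHom.id ℂ _ := by
    apply MvPolynomial.algHom_ext
    intro i
    rw [AlgHom.comp_apply, AlgHom.id_apply]
    by_cases hi : i = i₀
    · subst hi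
      have h1 : E β i y (X i) = C (conj (β i)) + X i - ∑ p ∈ univ.erase i, C (y p) * X p := by
        simp [E]
      rw [h1, map_sub, map_add, E'_C, map_sum]
      have h2 : E' β i y (X i) = X i - C (conj (β i)) +
          ∑ p ∈ univ.erase i, C (y p / y i) * (X p - C (conj (β p))) := by
        simp [E']
      rw [h2]
      have h3 : ∑ p ∈ univ.erase i, E' β i y (C (y p) * X p) =
          ∑ p ∈ univ.erase i, C (y p / y i) * (X p - C (conj (β p))) := by
        refine Finset.sum_congr rfl fun p hp => ?_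
        have hp' : p ≠ i := Finset.ne_of_mem_erase hp
        rw [map_mul, E'_C]
        have h4 : E' β i y (X p) = C (1 / y i) * (X p - C (conj (β p))) := by
          simp [E', hp']
        rw [h4, ← mul_assoc, ← C_mul, mul_one_div]
      rw [h3]
      ring
    · have h1 : E β i₀ y (X i) = C (conj (β i)) + C (y i₀) * X i := by
        simp [E, hi]
      have h4 : E' β i₀ y (X i) = C (1 / y i₀) * (X i - C (conj (β i))) := by
        simp [E', hi]
      rw [h1, map_add, map_mul, E'_C, E'_C, h4, ← mul_assoc, ← C_mul, mul_one_div,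
        div_self hy, C_1]
      ring
  exact DFunLike.congr_fun h p

theorem E_Lc {m : ℕ} (β : Fin m → ℂ) (i₀ : Fin m) (y : Fin m → ℂ) :
    E β i₀ y (Lc β y) = C (y i₀) * X i₀ := by
  unfold Lc
  rw [map_sum, ← Finset.add_sum_erase _ _ (Finset.mem_univ i₀)]
  have h1 : E β i₀ y (C (y i₀) * (X i₀ - C (conj (β i₀)))) =
      C (y i₀) * X i₀ - ∑ p ∈ univ.erase i₀, C (y i₀) * (C (y p) * X p) := by
    rw [map_mul, map_sub, E_C, E_C]
    have h2 : E β i₀ y (X i₀) = C (conj (β i₀)) + X i₀ -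
        ∑ p ∈ univ.erase i₀, C (y p) * X p := by
      simp [E]
    rw [h2, ← Finset.mul_sum]
    ring
  have h3 : ∑ p ∈ univ.erase i₀, E β i₀ y (C (y p) * (X p - C (conj (β p)))) =
      ∑ p ∈ univ.erase i₀, C (y i₀) * (C (y p) * X p) := by
    refine Finset.sum_congr rfl fun p hp => ?_
    have hp' : p ≠ i₀ := Finset.ne_of_mem_erase hp
    have h4 : E β i₀ y (X p) = C (conj (β p)) + C (y i₀) * X p := by
      simp [E, hp']
    rw [map_mul, map_sub, E_C, E_C, h4]
    ring
  rw [h1, h3]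
  ring

/-- the criterion -/
theorem crit {m N : ℕ} (β : Fin m → ℂ) (i₀ : Fin m) (y : Fin m → ℂ) (hy : y i₀ ≠ 0)
    (g : Fin (N + 1) → MvPolynomial (Fin m) ℂ) (u : Fin (N + 1) → ℂ) (k : ℕ) :
    xp β y ^ k ∣ hfc g u ↔ ∀ n : Fin m →₀ ℕ, n i₀ < k → coeff n (E β i₀ y (HL g u)) = 0 := by
  rw [cjm_dvd, map_pow, cjm_xp, cjm_hfc, ← X_pow_dvd_iff']
  have hu : IsUnit (C (y i₀) ^ k : MvPolynomial (Fin m) ℂ) :=
    (IsUnit.map C (isUnit_iff_ne_zero.2 hy)).pow k
  have h1 : (E β i₀ y (Lc β y)) ^ k = C (y i₀) ^ k * X i₀ ^ k := by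
    rw [E_Lc, mul_pow]
  constructor
  · intro h
    have h2 := map_dvd (E β i₀ y) h
    rw [map_pow, h1] at h2
    exact (dvd_mul_left _ _).trans h2
  · intro h
    have h2 : (E β i₀ y (Lc β y)) ^ k ∣ E β i₀ y (HL g u) := by
      rw [h1]
      exact (hu.mul_left_dvd).2 h
    have h3 := map_dvd (E' β i₀ y) h2
    rw [map_pow, E'_E β i₀ y hy, E'_E β i₀ y hy] at h3
    exact h3

/-! ### The universal substitution -/

/-- the substitution with variable `y` -/
noncomputable def Eu {m : ℕ} (β : Fin m → ℂ) (i₀ : Fin m) :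
    MvPolynomial (Fin m) ℂ →ₐ[ℂ] MvPolynomial (Fin m) (MvPolynomial (Fin m) ℂ) :=
  aeval fun i => if i = i₀ then C (C (conj (β i₀))) + X i₀ - ∑ p ∈ univ.erase i₀, C (X p) * X p
    else C (C (conj (β i))) + C (X i₀) * X i

theorem Eu_C {m : ℕ} (β : Fin m → ℂ) (i₀ : Fin m) (c : ℂ) :
    Eu β i₀ (C c) = C (C c) := by
  unfold Eu
  rw [aeval_C]
  rfl

theorem map_Eu {m : ℕ} (β : Fin m → ℂ) (i₀ : Fin m) (y : Fin m → ℂ)
    (q : MvPolynomial (Fin m) ℂ) :
    MvPolynomial.map (eval y) (Eu β i₀ q) = E β i₀ y q := by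
  induction q using MvPolynomial.induction_on with
  | C c => rw [Eu_C, E_C, map_C, eval_C]
  | add p q hp hq => rw [map_add, map_add, map_add, hp, hq]
  | mul_X p i hp =>
    rw [map_mul, map_mul, map_mul, hp]
    congr 1
    by_cases hi : i = i₀
    · subst hi
      simp [Eu, E]
    · simp [Eu, E, hi]

/-- the pairing with variable `y` -/
noncomputable def Bs {m N : ℕ} (β : Fin m → ℂ) (i₀ : Fin m)
    (g : Fin (N + 1) → MvPolynomial (Fin m) ℂ) (j : ℕ) :
    MvPolynomial (Fin m) (MvPolynomial (Fin m) ℂ) :=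
  C (atx β (gam (g 0) j)) * Eu β i₀ (cjm (g 0)) -
    ∑ r : Fin N, C (atx β (gam (g r.succ) j)) * Eu β i₀ (cjm (g r.succ))

theorem coeff_Bs {m N : ℕ} (β : Fin m → ℂ) (i₀ : Fin m)
    (g : Fin (N + 1) → MvPolynomial (Fin m) ℂ) (j : ℕ) (y : Fin m → ℂ) (n : Fin m →₀ ℕ) :
    eval y (coeff n (Bs β i₀ g j)) =
      coeff n (E β i₀ y (HL g fun r => eval y (atx β (gam (g r) j)))) := by
  rw [← coeff_map]
  congr 1
  unfold Bs HL
  rw [map_sub, map_sub, map_mul, map_mul, map_sum, map_sum, map_C, map_Eu, E_C]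
  congr 1
  refine Finset.sum_congr rfl fun r _ => ?_
  rw [map_mul, map_mul, map_C, map_Eu, E_C]

/-! ### The specialisations -/

/-- the line through `(β, a)` -/
noncomputable def phi {m : ℕ} (β : Fin m → ℂ) (a : ℂ) :
    MvPolynomial ((Fin m ⊕ Unit) ⊕ (Fin m ⊕ Unit)) ℂ →ₐ[ℂ] MvPolynomial (Fin m) ℂ :=
  aeval (Sum.elim (Sum.elim (fun i => C (β i)) fun _ => C a)
    (Sum.elim (fun i => X i) fun _ => ∑ i, C (conj (β i)) * X i))

/-- the hyperplane -/
noncomputable def theta {m : ℕ} (β : Fin m → ℂ) (b : ℂ) :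
    MvPolynomial ((Fin m ⊕ Unit) ⊕ (Fin m ⊕ Unit)) ℂ →ₐ[ℂ] MvPolynomial (Fin m ⊕ Fin m) ℂ :=
  aeval (Sum.elim (Sum.elim (fun i => X (Sum.inl i))
      fun _ => ∑ i, C (conj (β i)) * X (Sum.inl i) - C b)
    (Sum.elim (fun i => X (Sum.inr i)) fun _ => ∑ i, C (conj (β i)) * X (Sum.inr i)))

theorem phi_rename {m : ℕ} (β : Fin m → ℂ) (a : ℂ) (q : MvPolynomial (Fin m) ℂ) :
    phi β a (rename (fun i => Sum.inr (Sum.inl i)) q) = q := by
  have h : (phi β a).comp (rename fun i => Sum.inr (Sum.inl i)) = AlgHom.id ℂ _ := by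
    apply MvPolynomial.algHom_ext
    intro i
    simp [phi]
  exact DFunLike.congr_fun h q

theorem atx_theta {m : ℕ} (β : Fin m → ℂ) (a : ℂ) (hnull : Null β a)
    (q : MvPolynomial ((Fin m ⊕ Unit) ⊕ (Fin m ⊕ Unit)) ℂ) :
    atx β (theta β (conj a) q) = phi β a q := by
  have h : (atx β).comp (theta β (conj a)) = phi β a := by
    apply MvPolynomial.algHom_ext
    intro i
    rw [AlgHom.comp_apply]
    rcases i with (i | i) | (i | i)
    · simp [phi, theta, atx]
    · have h1 : theta β (conj a) (X (Sum.inl (Sum.inr i))) =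
          ∑ i, C (conj (β i)) * X (Sum.inl i) - C (conj a) := by
        simp [theta]
      have h2 : phi β a (X (Sum.inl (Sum.inr i))) = C a := by
        simp [phi]
      rw [h1, h2, map_sub, map_sum, atx_C]
      have h3 : ∀ i : Fin m, atx β (C (conj (β i)) * X (Sum.inl i)) = C (β i * conj (β i)) := by
        intro i
        rw [map_mul, atx_C]
        have h4 : atx β (X (Sum.inl i)) = C (β i) := by simp [atx]
        rw [h4, ← C_mul, mul_comm]
      rw [Finset.sum_congr rfl fun i _ => h3 i, ← map_sum, ← C_sub, ← hnull, add_sub_cancel_right]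
    · simp [phi, theta, atx]
    · have h1 : theta β (conj a) (X (Sum.inr (Sum.inr i))) =
          ∑ i, C (conj (β i)) * X (Sum.inr i) := by
        simp [theta]
      have h2 : phi β a (X (Sum.inr (Sum.inr i))) = ∑ i, C (conj (β i)) * X i := by
        simp [phi]
      rw [h1, h2, map_sum]
      refine Finset.sum_congr rfl fun i _ => ?_
      rw [map_mul, atx_C]
      congr 1
      simp [atx]
  exact DFunLike.congr_fun h q

theorem theta_gam {m : ℕ} (β : Fin m → ℂ) (b : ℂ) (P : MvPolynomial (Fin m ⊕ Unit) ℂ) (j : ℕ) :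
    theta β b (gam P j) = gam (aeval (Sum.elim (fun i => X i)
      (fun _ => ∑ i, C (conj (β i)) * X i - C b)) P : MvPolynomial (Fin m) ℂ) j := by
  have hC : ∀ c : ℂ, (aeval fun j => Polynomial.C (X (Sum.inl j)) + Polynomial.C (X (Sum.inr j)) *
      Polynomial.X) (C c : MvPolynomial (Fin m) ℂ) =
      (Polynomial.C (C c) : Polynomial (MvPolynomial (Fin m ⊕ Fin m) ℂ)) := by
    intro c
    rw [MvPolynomial.aeval_C]
    rfl
  have key : Polynomial.map (theta β b).toRingHom
      (aeval (fun j => Polynomial.C (X (Sum.inl j)) + Polynomial.C (X (Sum.inr j)) * Polynomial.X) P :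
        Polynomial (MvPolynomial ((Fin m ⊕ Unit) ⊕ (Fin m ⊕ Unit)) ℂ)) =
      (aeval (fun j => Polynomial.C (X (Sum.inl j)) + Polynomial.C (X (Sum.inr j)) * Polynomial.X)
        (aeval (Sum.elim (fun i => X i) (fun _ => ∑ i, C (conj (β i)) * X i - C b)) P :
          MvPolynomial (Fin m) ℂ) : Polynomial (MvPolynomial (Fin m ⊕ Fin m) ℂ)) := by
    induction P using MvPolynomial.induction_on with
    | C c =>
      have h0 : (aeval fun j => Polynomial.C (X (Sum.inl j)) + Polynomial.C (X (Sum.inr j)) *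
          Polynomial.X) (C c : MvPolynomial (Fin m ⊕ Unit) ℂ) =
          (Polynomial.C (C c) :
            Polynomial (MvPolynomial ((Fin m ⊕ Unit) ⊕ (Fin m ⊕ Unit)) ℂ)) := by
        rw [MvPolynomial.aeval_C]
        rfl
      rw [h0, MvPolynomial.aeval_C, MvPolynomial.algebraMap_eq, hC, Polynomial.map_C]
      congr 1
      simp [theta, MvPolynomial.algebraMap_eq]
    | add p q hp hq => simp only [map_add, Polynomial.map_add, hp, hq]
    | mul_X p i hp =>
      simp only [map_mul, Polynomial.map_mul, hp, MvPolynomial.aeval_X]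
      congr 1
      cases i with
      | inl i => simp [theta]
      | inr i =>
        simp only [Sum.elim_inr, map_sub, map_sum, map_mul, MvPolynomial.aeval_X, hC,
          Polynomial.map_add, Polynomial.map_mul, Polynomial.map_C, Polynomial.map_X]
        have h1 : (theta β b).toRingHom (X (Sum.inl (Sum.inr i))) =
            ∑ i, C (conj (β i)) * X (Sum.inl i) - C b := by
          simp [theta]
        have h2 : (theta β b).toRingHom (X (Sum.inr (Sum.inr i))) =
            ∑ i, C (conj (β i)) * X (Sum.inr i) := by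
          simp [theta]
        rw [h1, h2]
        simp only [map_sub, map_sum, map_mul, mul_add, Finset.sum_add_distrib, Finset.sum_mul,
          mul_assoc]
        ring
  have h1 := congrArg (fun p => Polynomial.coeff p j) key
  simp only [Polynomial.coeff_map] at h1
  exact h1

theorem theta_gam_gp {m N : ℕ} (f : Fin (N + 1) → MvPolynomial (Fin m ⊕ Unit) ℂ)
    (β : Fin m → ℂ) (b : ℂ) (r : Fin (N + 1)) (j : ℕ) :
    theta β b (gam (f r) j) = gam (gp f β b r) j :=
  theta_gam β b (f r) j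

theorem eval_phi {m : ℕ} (β : Fin m → ℂ) (a : ℂ) (v : Fin m → ℂ)
    (q : MvPolynomial ((Fin m ⊕ Unit) ⊕ (Fin m ⊕ Unit)) ℂ) :
    eval v (phi β a q) = eval (Sum.elim (Sum.elim β fun _ => a)
        (Sum.elim v fun _ => ∑ i, v i * conj (β i))) q := by
  induction q using MvPolynomial.induction_on with
  | C c => simp [phi]
  | add p q hp hq => simp only [map_add, hp, hq]
  | mul_X p i hp =>
    simp only [map_mul, hp, eval_X]
    congr 1
    rcases i with (i | i) | (i | i)
    · simp [phi]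
    · simp [phi]
    · simp [phi]
    · simp only [phi, aeval_X, Sum.elim_inr, map_sum, map_mul, eval_C, eval_X]
      exact Finset.sum_congr rfl fun i _ => mul_comm _ _

/-! ### The theorem -/

theorem h_ext (h1 : J_RK) (h2 : Q_RK2) : Q_EXT := by
  classical
  intro m N d f hf hm
  obtain ⟨W, hW0, hW⟩ := h2 ((Fin m ⊕ Unit) ⊕ (Fin m ⊕ Unit)) (Fin (N + 1)) (Fin (d + 1))
    (fun r c => gam (f r) c)
  refine ⟨W, hW0, ?_⟩
  intro β a hnull k
  set i₀ : Fin m := ⟨0, by omega⟩ with hi₀
  set g := gp f β (conj a) with hg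
  have hA : ∀ (y : Fin m → ℂ) (j : ℕ) (r : Fin (N + 1)),
      eval y (atx β (gam (g r) j)) = AJ f β a y j r := by
    intro y j r
    rw [AJ_eq_gam f β a hnull, eval_atx]
  have hA' : ∀ (y : Fin m → ℂ) (j : ℕ),
      (fun r => eval y (atx β (gam (g r) j))) = AJ f β a y j := by
    intro y j
    funext r
    exact hA y j r
  set S : Finset (Fin m →₀ ℕ) := (range d).biUnion fun j => (Bs β i₀ g (j + 1)).support with hS
  let M : (Fin (N + 1) ⊕ {n // n ∈ S.filter fun n => n i₀ < k}) → Fin (d + 1) →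
      MvPolynomial (Fin m) ℂ :=
    Sum.elim (fun r c => atx β (gam (g r) c))
      (fun n c => if (c : ℕ) < d then coeff n.1 (Bs β i₀ g (c + 1)) else 0)
  obtain ⟨Wk, hWk0, hWk⟩ := h1 (Fin m) _ (Fin (d + 1)) M
  refine ⟨X i₀ * Wk, mul_ne_zero (X_ne_zero _) hWk0, ?_⟩
  intro v hv hV κ hκ1 hκ2
  rw [map_mul, eval_X] at hV
  have hv0 : v i₀ ≠ 0 := left_ne_zero_of_mul hV
  have hvW : eval v Wk ≠ 0 := right_ne_zero_of_mul hV
  -- the criterion
  have hcoef : ∀ (y : Fin m → ℂ) (κ' : ℕ → ℂ) (n : Fin m →₀ ℕ),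
      coeff n (E β i₀ y (HL g (∑ j ∈ range d, κ' j • AJ f β a y (j + 1)))) =
        ∑ j ∈ range d, κ' j * eval y (coeff n (Bs β i₀ g (j + 1))) := by
    intro y κ' n
    rw [HL_sum, map_sum, coeff_sum]
    refine Finset.sum_congr rfl fun j _ => ?_
    rw [map_mul, E_C, coeff_C_mul, coeff_Bs, hA']
  have hsum : ∀ (y : Fin m → ℂ) (κ' : ℕ → ℂ) (n : {n // n ∈ S.filter fun n => n i₀ < k}),
      ∑ c : Fin (d + 1), eval y (M (Sum.inr n) c) * κ' c =
        ∑ j ∈ range d, κ' j * eval y (coeff n.1 (Bs β i₀ g (j + 1))) := by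
    intro y κ' n
    rw [Fin.sum_univ_castSucc, Finset.sum_range]
    have h3 : eval y (M (Sum.inr n) (Fin.last d)) * κ' (Fin.last d) = 0 := by
      simp [M]
    rw [h3, add_zero]
    refine Finset.sum_congr rfl fun j _ => ?_
    have h4 : M (Sum.inr n) j.castSucc = coeff n.1 (Bs β i₀ g (j + 1)) := by
      simp [M]
    rw [h4, mul_comm]
    rfl
  have key : ∀ (y : Fin m → ℂ), y i₀ ≠ 0 → ∀ κ' : ℕ → ℂ,
      (xp β y ^ k ∣ hfc g (∑ j ∈ range d, κ' j • AJ f β a y (j + 1)) ↔
        ∀ n : {n // n ∈ S.filter fun n => n i₀ < k},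
          ∑ c : Fin (d + 1), eval y (M (Sum.inr n) c) * κ' c = 0) := by
    intro y hy κ'
    rw [crit β i₀ y hy]
    constructor
    · intro h n
      rw [hsum, ← hcoef]
      exact h n.1 (Finset.mem_filter.1 n.2).2
    · intro h n hn
      rw [hcoef]
      by_cases hnS : n ∈ S
      · have h3 := h ⟨n, Finset.mem_filter.2 ⟨hnS, hn⟩⟩
        rw [hsum] at h3
        exact h3
      · refine Finset.sum_eq_zero fun j hj => ?_
        have h3 : coeff n (Bs β i₀ g (j + 1)) = 0 := by
          by_contra h4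
          exact hnS (Finset.mem_biUnion.2 ⟨j, hj, mem_support_iff.2 h4⟩)
        rw [h3, map_zero, mul_zero]
  -- the polynomials `K`
  have hu : ∀ r, ∑ c : Fin (d + 1), eval v (M r c) * κ c = 0 := by
    rintro (r | n)
    · have h3 := congrFun hκ1 r
      rw [Finset.sum_apply, Finset.sum_range, Pi.zero_apply] at h3
      rw [← h3]
      refine Finset.sum_congr rfl fun c _ => ?_
      show eval v (atx β (gam (g r) c)) * κ c = κ c * AJ f β a v c r
      rw [hA, mul_comm]
    · exact (key v hv0 κ).1 hκ2 n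
  obtain ⟨K, hK1, hK2⟩ := hWk v hvW (fun c => κ c) hu
  let K' : Fin (d + 1) → MvPolynomial (Fin m) ℂ := fun c => C (1 / v i₀) * X i₀ * K c
  have hK'1 : ∀ r, ∑ c, M r c * K' c = 0 := by
    intro r
    have h3 : ∀ c, M r c * K' c = C (1 / v i₀) * X i₀ * (M r c * K c) := fun c => by
      simp only [K']
      ring
    rw [Finset.sum_congr rfl fun c _ => h3 c, ← Finset.mul_sum, hK1, mul_zero]
  have hK'2 : ∀ c, eval v (K' c) = κ c := by
    intro c
    simp only [K', map_mul, eval_C, eval_X, hK2]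
    field_simp
  have hW' : ∀ r, ∑ c : Fin (d + 1), phi β a (gam (f r) c) * K' c = 0 := by
    intro r
    have h3 := hK'1 (Sum.inl r)
    rw [← h3]
    refine Finset.sum_congr rfl fun c _ => ?_
    rw [← atx_theta β a hnull, theta_gam_gp]
    rfl
  have hφW : eval v (phi β a W) ≠ 0 := by
    rw [eval_phi]
    exact hv
  obtain ⟨Kt, hKt1, hKt2⟩ := hW (Fin m) (phi β a) (rename fun i => Sum.inr (Sum.inl i))
    (phi_rename β a) (fun h0 => hφW (by rw [h0, map_zero])) K' hW'
  let l : ℕ → MvPolynomial (Fin m ⊕ Fin m) ℂ := fun j =>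
    if h : j < d + 1 then C (1 / eval v (phi β a W)) * theta β (conj a) (Kt ⟨j, h⟩) else 0
  have hl : ∀ (y : Fin m → ℂ) (j : Fin (d + 1)), eval (Sum.elim β y) (l j) =
      1 / eval v (phi β a W) * (eval y (phi β a W) * eval y (K' j)) := by
    intro y j
    have h3 : l j = C (1 / eval v (phi β a W)) * theta β (conj a) (Kt j) := by
      simp only [l]
      rw [dif_pos j.2]
    rw [h3, ← eval_atx, map_mul, atx_C, map_mul, eval_C, atx_theta β a hnull, hKt2, map_mul]
  refine ⟨l, ?_, ?_, ?_⟩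
  · intro s hs r
    have hs0 : s = 0 := by omega
    subst hs0
    rw [Finset.sum_range]
    have h3 : ∀ j : Fin (d + 1), l ((j : ℕ) + 0) * gam (gp f β (conj a) r) j =
        C (1 / eval v (phi β a W)) * theta β (conj a) (gam (f r) j * Kt j) := by
      intro j
      have h4 : l j = C (1 / eval v (phi β a W)) * theta β (conj a) (Kt j) := by
        simp only [l]
        rw [dif_pos j.2]
      rw [add_zero, h4, map_mul, theta_gam_gp]
      ring
    rw [Finset.sum_congr rfl fun j _ => h3 j, ← Finset.mul_sum, ← map_sum, hKt1, map_zero, mul_zero]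
  · intro y
    rw [ev_cf f β a hnull]
    have h5 : ∑ i ∈ range d, eval (Sum.elim β y) (l i) • AJ f β a y (i + 1) =
        (1 / eval v (phi β a W) * eval y (phi β a W)) •
          ∑ i ∈ range d, (if h : i < d + 1 then eval y (K' ⟨i, h⟩) else 0) •
            AJ f β a y (i + 1) := by
      rw [Finset.smul_sum]
      refine Finset.sum_congr rfl fun i hi => ?_
      have hi' : i < d + 1 := by
        have := Finset.mem_range.1 hi
        omega
      have h6 := hl y ⟨i, hi'⟩
      rw [dif_pos hi', h6, smul_smul, mul_assoc]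
    rw [h5]
    have h7 : ∀ (c : ℂ) (u : Fin (N + 1) → ℂ), hfc (gp f β (conj a)) (c • u) =
        C (conj c) * hfc (gp f β (conj a)) u := by
      intro c u
      unfold hfc
      simp only [Pi.smul_apply, smul_eq_mul, map_mul, mul_assoc, mul_sub, Finset.mul_sum]
    rw [h7]
    refine dvd_mul_of_dvd_right ?_ _
    by_cases hy : y i₀ = 0
    · have h8 : ∑ i ∈ range d, (if h : i < d + 1 then eval y (K' ⟨i, h⟩) else 0) •
          AJ f β a y (i + 1) = 0 := by
        refine Finset.sum_eq_zero fun i hi => ?_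
        have hi' : i < d + 1 := by
          have := Finset.mem_range.1 hi
          omega
        rw [dif_pos hi']
        have h9 : eval y (K' ⟨i, hi'⟩) = 0 := by
          simp only [K', map_mul, eval_X, hy, mul_zero, zero_mul]
        rw [h9, zero_smul]
      rw [h8]
      have h10 : hfc (gp f β (conj a)) (0 : Fin (N + 1) → ℂ) = 0 := by
        unfold hfc
        simp
      rw [h10]
      exact dvd_zero _
    · refine (key y hy fun i => if h : i < d + 1 then eval y (K' ⟨i, h⟩) else 0).2 ?_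
      intro n
      have h11 := congrArg (eval y) (hK'1 (Sum.inr n))
      rw [map_sum, map_zero] at h11
      rw [← h11]
      refine Finset.sum_congr rfl fun c _ => ?_
      rw [dif_pos c.2, map_mul (eval y) (M (Sum.inr n) c)]
  · intro i hi
    have h12 := hl v ⟨i, hi⟩
    rw [hK'2] at h12
    rw [h12]
    field_simp

end Pool.Agent.Helper88.DC
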